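import Pool.Agent.Run7.h851.T.Iface

/-!
# From the dimension to four explicit numbers
-/

open Polynomial Pool.Agent.H337R2

namespace Pool.Agent.Run7.h851.T

noncomputable section

namespace Fn

/-- a family spanning a space of dimension larger than `m` contains a vector outside the span of `m` vectors -/
theorem exists_not_mem {m : ℕ} {ι : Type} [Fintype ι] (v : Fin m → ℝ) (w : ι → ℝ)
    (h : m < Module.finrank ℚ (Submodule.span ℚ (Set.range w))) :
    ∃ i, w i ∉ Submodule.span ℚ (Set.range v) := by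
  by_contra hc
  push Not at hc
  have h1 : Submodule.span ℚ (Set.range w) ≤ Submodule.span ℚ (Set.range v) := by
    rw [Submodule.span_le]
    rintro _ ⟨i, rfl⟩
    exact hc i
  have hfd : FiniteDimensional ℚ (Submodule.span ℚ (Set.range v)) :=
    FiniteDimensional.span_of_finite ℚ (Set.finite_range v)
  have h2 := Submodule.finrank_mono h1
  have h3 := finrank_range_le_card (R := ℚ) v
  rw [Fintype.card_fin] at h3
  exact absurd (lt_of_lt_of_le h (h2.trans h3)) (lt_irrefl m)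

end Fn

/-- explicit form of `St_Z_main` -/
theorem explicit_of (h : St_Z_main) (h3 : Irrational (zr 3)) (h7 : Pool.Agent.Dim7.St_Z_main) :
    ∃ j k : ℕ, (j = 5 ∨ j = 7) ∧ Odd k ∧ j < k ∧ k ≤ 63 ∧ LinearIndependent ℚ ![(1 : ℝ), zr 3, zr j, zr k] := by
  -- two numbers
  have hli2 : LinearIndependent ℚ ![(1 : ℝ), zr 3] := by
    rw [LinearIndependent.pair_iff]
    intro s t hst
    rw [Rat.smul_def, Rat.smul_def, mul_one] at hst
    have ht : t = 0 := by
      by_contra ht
      apply h3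
      refine ⟨-s / t, ?_⟩
      have ht' : (t : ℝ) ≠ 0 := by exact_mod_cast ht
      push_cast
      field_simp
      linarith
    subst ht
    simp at hst
    exact ⟨hst, rfl⟩
  have one_mem : ∀ {m : ℕ} (v : Fin (m + 1) → ℝ), v 0 = 1 → (1 : ℝ) ∈ Submodule.span ℚ (Set.range v) :=
    fun v hv => Submodule.subset_span ⟨0, hv⟩
  -- the third number
  have hj : ∃ j : ℕ, (j = 5 ∨ j = 7) ∧ zr j ∉ Submodule.span ℚ (Set.range ![(1 : ℝ), zr 3]) ∧
      (j = 7 → zr 5 ∈ Submodule.span ℚ (Set.range ![(1 : ℝ), zr 3])) := by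
    by_cases h5 : zr 5 ∈ Submodule.span ℚ (Set.range ![(1 : ℝ), zr 3])
    · obtain ⟨i, hi⟩ := Fn.exists_not_mem ![(1 : ℝ), zr 3] _ h7
      refine ⟨7, Or.inr rfl, ?_, fun _ => h5⟩
      rcases i with ⟨i, hi4⟩
      have : i = 0 ∨ i = 1 ∨ i = 2 ∨ i = 3 := by omega
      rcases this with rfl | rfl | rfl | rfl
      · exact (hi (Submodule.subset_span ⟨0, by simp⟩)).elim
      · exact (hi (Submodule.subset_span ⟨1, by simp⟩)).elim
      · exact absurd (by simpa using h5) hi
      · simpa using hi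
    · exact ⟨5, Or.inl rfl, h5, fun h => by norm_num at h⟩
  obtain ⟨j, hj57, hjn, hj7⟩ := hj
  have hli3 : LinearIndependent ℚ ![(1 : ℝ), zr 3, zr j] := by
    have h1 : LinearIndependent ℚ (Fin.snoc ![(1 : ℝ), zr 3] (zr j) : Fin 3 → ℝ) :=
      linearIndependent_finSnoc.2 ⟨hli2, hjn⟩
    have h2 : (Fin.snoc ![(1 : ℝ), zr 3] (zr j) : Fin 3 → ℝ) = ![(1 : ℝ), zr 3, zr j] := by
      ext i; fin_cases i <;> rfl
    rwa [h2] at h1
  have hsub : Submodule.span ℚ (Set.range ![(1 : ℝ), zr 3]) ≤ Submodule.span ℚ (Set.range ![(1 : ℝ), zr 3, zr j]) := by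
    rw [Submodule.span_le]
    rintro _ ⟨i, rfl⟩
    fin_cases i
    · exact Submodule.subset_span ⟨0, rfl⟩
    · exact Submodule.subset_span ⟨1, rfl⟩
  -- the fourth number
  obtain ⟨i, hi⟩ := Fn.exists_not_mem ![(1 : ℝ), zr 3, zr j] _ h
  rcases i with ⟨i, hi32⟩
  have hi0 : i ≠ 0 := by
    rintro rfl
    exact hi (Submodule.subset_span ⟨0, by simp⟩)
  have hi1 : i ≠ 1 := by
    rintro rfl
    exact hi (Submodule.subset_span ⟨1, by simp⟩)
  simp only [hi0, if_false] at hi
  have hij : 2 * i + 1 ≠ j := by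
    intro hij
    exact hi (Submodule.subset_span ⟨2, by simp [hij]⟩)
  have hgt : j < 2 * i + 1 := by
    rcases hj57 with rfl | rfl
    · omega
    · rcases Nat.lt_or_ge 7 (2 * i + 1) with h | h
      · exact h
      · exfalso
        have : i = 2 := by omega
        subst this
        exact hi (hsub (hj7 rfl))
  refine ⟨j, 2 * i + 1, hj57, ⟨i, rfl⟩, hgt, by omega, ?_⟩
  have h1 : LinearIndependent ℚ (Fin.snoc ![(1 : ℝ), zr 3, zr j] (zr (2 * i + 1)) : Fin 4 → ℝ) :=
    linearIndependent_finSnoc.2 ⟨hli3, hi⟩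
  have h2 : (Fin.snoc ![(1 : ℝ), zr 3, zr j] (zr (2 * i + 1)) : Fin 4 → ℝ) =
      ![(1 : ℝ), zr 3, zr j, zr (2 * i + 1)] := by
    ext i; fin_cases i <;> rfl
  rwa [h2] at h1

end

end Pool.Agent.Run7.h851.T
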