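import Pool.Agent.Run7.h851.T.Main
import Pool.Agent.Run7.h851.T.Fin

/-!
# Explicit form: `1, ζ(3), ζ(j), ζ(k)` linearly independent with `j ∈ {5, 7}` and `k ≤ 63`
-/

open Pool.Agent.H337R2

namespace Pool.Agent.Run7.h851.T

theorem Z_explicit : ∃ j k : ℕ, (j = 5 ∨ j = 7) ∧ Odd k ∧ j < k ∧ k ≤ 63 ∧
    LinearIndependent ℚ ![(1 : ℝ), zr 3, zr j, zr k] :=
  explicit_of Z_main Pool.Agent.Dim7.Z3_irr Pool.Agent.Dim7.Z_main

end Pool.Agent.Run7.h851.T
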