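import Pool.Agent.Run7.h851.T.Defs
import Pool.Agent.Dim7.Iface

/-!
# The statements of the parts of the proof (interface)

Each `St_xxx` is ported from the statement of the same name in `Pool/Agent/Dim7/Iface.lean`; the proof is ported from the
file of `Pool/Agent/Dim7` named in the table of pieces.
-/

open Polynomial Pool.Agent.H337R2 Filter Topology

namespace Pool.Agent.Run7.h851.T

noncomputable section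

/-! ### abstract determinants (three kinds of columns) -/

/-- change of basis (port of `H574R2/D3/A1.lean`, `A1_MD_monic`) -/
def St_A1_monic : Prop := ∀ (A B C' : ℚ[X] →ₗ[ℚ] ℚ) (m : ℕ) (Q P P' P'' : ℕ → ℚ[X]),
    (∀ i < 3 * m, (Q i).Monic ∧ (Q i).natDegree = i) → (∀ i < m, (P i).Monic ∧ (P i).natDegree = i) →
    (∀ i < m, (P' i).Monic ∧ (P' i).natDegree = i) → (∀ i < m, (P'' i).Monic ∧ (P'' i).natDegree = i) →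
    (Matrix.of fun i j : Fin (3 * m) =>
      if j.1 < m then A (Q i.1 * P j.1) else if j.1 < 2 * m then B (Q i.1 * P' (j.1 - m))
      else C' (Q i.1 * P'' (j.1 - 2 * m))).det = MD A B C' m

/-- change of basis with real combinations of the columns (port of `H574R2/D3/A1.lean`, `A1_real`) -/
def St_A1_real : Prop := ∀ (A B C' : ℚ[X] →ₗ[ℚ] ℚ) (θ₁ θ₂ : ℝ) (m : ℕ) (Q P P' : ℕ → ℚ[X]),
    (∀ i < 3 * m, (Q i).Monic ∧ (Q i).natDegree = i) → (∀ i < m, (P i).Monic ∧ (P i).natDegree = i) →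
    (∀ i < m, (P' i).Monic ∧ (P' i).natDegree = i) →
    (Matrix.of fun i j : Fin (3 * m) =>
      if j.1 < m then ((A (Q i.1 * P j.1) : ℚ) : ℝ) + θ₁ * ((B (Q i.1 * P j.1) : ℚ) : ℝ) +
        θ₂ * ((C' (Q i.1 * P j.1) : ℚ) : ℝ)
      else if j.1 < 2 * m then ((B (Q i.1 * P' (j.1 - m)) : ℚ) : ℝ)
      else ((C' (Q i.1 * P' (j.1 - 2 * m)) : ℚ) : ℝ)).det = ((MD A B C' m : ℚ) : ℝ)

/-- non-vanishing from an arbitrary basis (port of `H574R2/D3/A2.lean`, `A2_MD_ne`) -/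
def St_A2_ne : Prop := ∀ (A B C' : ℚ[X] →ₗ[ℚ] ℚ) (m : ℕ) (R C : Type) [Fintype R] [DecidableEq R] [Fintype C]
    [DecidableEq C] (e : R ≃ C ⊕ (C ⊕ C)), Fintype.card R = 3 * m → Fintype.card C = m →
    ∀ (Q : R → ℚ[X]) (P : C → ℚ[X]), (∀ r, (Q r).natDegree < 3 * m) → (∀ c, (P c).natDegree < m) →
    (Matrix.of fun r s : R => Sum.elim (fun c => A (Q r * P c))
      (Sum.elim (fun c => B (Q r * P c)) (fun c => C' (Q r * P c))) (e s)).det ≠ 0 → MD A B C' m ≠ 0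

/-- (port of `D1_split` in `H574R2/D3/D1.lean`) -/
def St_D1_split : Prop := ∀ y : ℤ, ∃ z : ℤ, T1 z + 3 * T1 (y - z) ≤ T4 y

/-! ### p-adic part -/

def St_C1_norm_cM : Prop := ∀ {n p : ℕ} [Fact p.Prime], 4 * n < p ^ 2 → padicNorm p (cM n) = (p : ℚ) ^ (-oM n p)

def St_C1_pa : Prop := ∀ {n p : ℕ} [Fact p.Prime], 1 ≤ n → 4 * n < p ^ 2 → ∀ (E : ℚ[X]) {k : ℕ},
    k ∈ sM n → ∀ (A : ℚ), 0 ≤ A → PB p (p : ℚ) A (TS (-(k : ℚ)) E) → ∀ (i : ℕ),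
    padicNorm p (pa (sM n) mM (PM n * E) k i) ≤ (p : ℚ) ^ (eM n p k - i : ℤ) * A

def St_C1_pa_int : Prop := ∀ {n p : ℕ} [Fact p.Prime], 1 ≤ n → ∀ (E : ℚ[X]) {k : ℕ},
    k ∈ sM n → ∀ (A : ℚ), 0 ≤ A → PB p 1 A (TS (-(k : ℚ)) E) → ∀ (i : ℕ),
    (∀ k' ∈ sM n, k' ≠ k → ¬ (p : ℤ) ∣ (k' : ℤ) - k) →
    padicNorm p (pa (sM n) mM (PM n * E) k i) ≤ padicNorm p (cM n) * A

def St_C2_xa : Prop := ∀ {n p : ℕ} [Fact p.Prime], 1 ≤ n → 4 * n < p ^ 2 → ∀ (q : ℕ) (α : ℕ → ℚ), UInt q α →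
    ∀ (E : ℚ[X]) (W : ℚ), 0 ≤ W → ∀ (A : ℕ → ℚ), (∀ k, 0 ≤ A k) →
    (∀ k ∈ sM n, PB p (p : ℚ) (A k) (TS (-(k : ℚ)) E)) →
    (∀ k ∈ sM n, PB p 1 1 (TS (-(k : ℚ)) E)) →
    (∀ k ∈ sM n, (p : ℚ) ^ (eM n p k) * A k ≤ W ∨
      (padicNorm p (cM n) ≤ W ∧ k < p ∧ ∀ k' ∈ sM n, k' ≠ k → ¬ (p : ℤ) ∣ (k' : ℤ) - k)) →
    padicNorm p ((q : ℚ) * xa n α (PM n * E)) ≤ W

/-- used with `i0 = 3` (columns `B`) and `i0 = 5` (columns `C`) -/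
def St_C2_xb : Prop := ∀ {n p : ℕ} [Fact p.Prime], 1 ≤ n → 4 * n < p ^ 2 → ∀ (q : ℕ) (β : ℕ → ℚ) (i0 : ℕ), UInt q β →
    (∀ i < i0, β i = 0) → ∀ (E : ℚ[X]) (W : ℚ), 0 ≤ W → ∀ (A : ℕ → ℚ), (∀ k, 0 ≤ A k) →
    (∀ k ∈ sM n, PB p (p : ℚ) (A k) (TS (-(k : ℚ)) E)) →
    (∀ k ∈ sM n, PB p 1 1 (TS (-(k : ℚ)) E)) →
    (∀ k ∈ sM n, (p : ℚ) ^ (eM n p k - i0) * A k ≤ W ∨
      (padicNorm p (cM n) ≤ W ∧ ∀ k' ∈ sM n, k' ≠ k → ¬ (p : ℤ) ∣ (k' : ℤ) - k)) →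
    padicNorm p ((q : ℚ) * xb n β (PM n * E)) ≤ W

def St_C3_crude : Prop := ∀ {n p : ℕ} [Fact p.Prime], 1 ≤ n → ∀ (q : ℕ) (u : ℕ → ℚ), UInt q u →
    ∀ (E : ℚ[X]) (A : ℚ), 0 ≤ A → (∀ k ∈ sM n, PB p ((144 * n + 1 : ℕ) : ℚ) A (TS (-(k : ℚ)) E)) →
    padicNorm p ((q : ℚ) * xa n u (PM n * E)) ≤ ((144 * n + 1 : ℕ) : ℚ) ^ 144 * A ∧
    padicNorm p ((q : ℚ) * xb n u (PM n * E)) ≤ ((144 * n + 1 : ℕ) : ℚ) ^ 144 * A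

def St_C4_CP_PB : Prop := ∀ {n p : ℕ} [Fact p.Prime], 1 ≤ n → ∀ (ρ : ℚ), 1 ≤ ρ →
    (∀ l : ℕ, 1 ≤ l → l ≤ 144 * n → (padicNorm p (l : ℚ))⁻¹ ≤ ρ) → ∀ (i j : ℕ), 2 * i ≤ 144 * n →
    2 * j ≤ 144 * n → ∀ (k : ℕ),
    PB p ρ (padicNorm p (((2 * i - 1).factorial : ℕ) : ℚ) * padicNorm p (((2 * j - 1).factorial : ℕ) : ℚ))
      (TS (-(k : ℚ)) (EM n (CP i * CP j)))

def St_D2_kap_mem : Prop := ∀ {n p k : ℕ}, 0 < p → k ≤ 4 * n → kap n p k ∈ Kset n p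

def St_D2_eM_kap : Prop := ∀ {n p k : ℕ}, 1 ≤ n → 0 < p → k ≤ 4 * n → eM n p (kap n p k) = eM n p k

/-- the general p-adic bound (port of `Dim7/D3.lean`), columns `B` with `3 ≤ i`, columns `C` with `5 ≤ i` -/
def St_D3_det_padic : Prop := ∀ {n p : ℕ} [Fact p.Prime], 1 ≤ n → 4 * n < p ^ 2 → ∀ (q : ℕ) (α β γ : ℕ → ℚ),
    UInt q α → UInt q β → UInt q γ → (∀ i < 3, β i = 0) → (∀ i < 5, γ i = 0) →
    ∀ (m : ℕ) (a : ℤ) (S : Finset ℕ), S ⊆ Kset n p →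
    (∀ k ∈ sM n, kap n p k ∈ S ∨
      (padicNorm p (cM n) ≤ (p : ℚ) ^ (a - 5) ∧ k < p ∧
        ∀ k' ∈ sM n, k' ≠ k → ¬ (p : ℤ) ∣ (k' : ℤ) - k)) →
    padicNorm p ((q : ℚ) ^ (3 * m) * MD (AL n α) (BL n β) (BL n γ) m) ≤
      (p : ℚ) ^ ((m : ℤ) * (3 * a - 8) + ∑ κ ∈ S, T4 (eM n p κ - a))

def St_D3_large : Prop := ∀ {n p : ℕ} [Fact p.Prime], 1 ≤ n → 4 * n < p → ∀ (q : ℕ) (α β γ : ℕ → ℚ),
    UInt q α → UInt q β → UInt q γ → (∀ i < 3, β i = 0) → (∀ i < 5, γ i = 0) → ∀ (m : ℕ),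
    padicNorm p ((q : ℚ) ^ (3 * m) * MD (AL n α) (BL n β) (BL n γ) m) ≤ 1

/-- the p-adic bound for `4n/3 < p < 4n`: classes with two poles (one generator) and with three poles; the `A` columns
multiplied by `p` (port of `Dim7/Mix.lean` with `τ = 1`). `4096 = T1 63 + T1 64` (two poles: total order `127`) and
`13541 = T1 142 + T1 49 + T1 47 + T1 45` (three poles: orders `191, 189, 187`). -/
def St_D3_mix : Prop := ∀ {n p : ℕ} [Fact p.Prime], 1 ≤ n → 100 ≤ p → 4 * n < 3 * p → p < 4 * n →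
    ∀ (q : ℕ) (α β γ : ℕ → ℚ), UInt q α → UInt q β → UInt q γ → (∀ i < 3, β i = 0) → (∀ i < 5, γ i = 0) → ∀ (m : ℕ),
    padicNorm p ((q : ℚ) ^ (3 * m) * MD (AL n α) (BL n β) (BL n γ) m) ≤
      (p : ℚ) ^ (-(3 * m * oM n p : ℤ) + m + 4096 * ((Alow n p).card : ℤ) + 13541 * ((Amid n p).card : ℤ))

def St_D4_small_med : Prop := ∀ {n p : ℕ} [Fact p.Prime], 1 ≤ n → 144 * n < p ^ 2 → ∀ (q : ℕ) (α β γ : ℕ → ℚ),
    UInt q α → UInt q β → UInt q γ → (∀ i < 3, β i = 0) → (∀ i < 5, γ i = 0) → ∀ (m : ℕ), m ≤ 24 * n →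
    padicNorm p ((q : ℚ) ^ (3 * m) * MD (AL n α) (BL n β) (BL n γ) m) ≤
      ((p : ℚ) ^ 64) ^ (3 * m) * ((∏ i ∈ Finset.range (3 * m), padicNorm p (((2 * i - 1).factorial : ℕ) : ℚ)) *
        ∏ i ∈ Finset.range m, padicNorm p (((2 * i - 1).factorial : ℕ) : ℚ) ^ 3)

def St_D4_small_crude : Prop := ∀ {n p : ℕ} [Fact p.Prime], 1 ≤ n → ∀ (q : ℕ) (α β γ : ℕ → ℚ),
    UInt q α → UInt q β → UInt q γ → (∀ i < 3, β i = 0) → (∀ i < 5, γ i = 0) → ∀ (m : ℕ), m ≤ 24 * n →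
    padicNorm p ((q : ℚ) ^ (3 * m) * MD (AL n α) (BL n β) (BL n γ) m) ≤
      (((144 * n + 1 : ℕ) : ℚ) ^ 144) ^ (3 * m) *
        ((∏ i ∈ Finset.range (3 * m), padicNorm p (((2 * i - 1).factorial : ℕ) : ℚ)) *
        ∏ i ∈ Finset.range m, padicNorm p (((2 * i - 1).factorial : ℕ) : ℚ) ^ 3)

def St_E1_Kset_sum : Prop := ∀ {n p : ℕ}, p.Prime → p ≠ 2 → p < 4 * n → ∀ (f : ℕ → ℤ) (M : ℤ), 0 ≤ M →
    (∀ r < p, f r = f ((4 * n - r) % p)) → (∀ r < p, f r ≤ M) →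
    2 * ∑ r ∈ Kset n p, f r ≤ ∑ r ∈ Finset.range p, f r + M

/-- the number of poles in the classes: `Np` takes the values `⌊4n/p⌋` and `⌊4n/p⌋ + 1`, with sum `4n+1` -/
def St_E2_Np : Prop := ∀ {n p : ℕ}, 1 ≤ n → 0 < p →
    (∀ r < p, Np n p r = 4 * n / p ∨ Np n p r = 4 * n / p + 1) ∧ ∑ r ∈ Finset.range p, Np n p r = 4 * n + 1

def St_E3_A : Prop := ∃ K0 : ℝ, ∀ n p : ℕ, p.Prime → 7 ≤ n → n < 50 * p → 3 * p ≤ 4 * n → 144 * n < p ^ 2 → ∀ a : ℤ,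
    a = (((128 * n + p) / (2 * p) : ℕ) : ℤ) + 1 - oM n p →
    ((((24 * n - 24 : ℕ) : ℤ) * (3 * a - 8) + ∑ κ ∈ Kset n p, T4 (eM n p κ - a) : ℤ) : ℝ) ≤ EA n p + K0

def St_E3_B : Prop := ∃ K0 : ℝ, ∀ n p : ℕ, p.Prime → 7 ≤ n → 4 * n < 3 * p → p < 4 * n →
    ((-(3 * ((24 * n - 24 : ℕ) : ℤ) * oM n p) + ((24 * n - 24 : ℕ) : ℤ) +
      4096 * ((Alow n p).card : ℤ) + 13541 * ((Amid n p).card : ℤ) : ℤ) : ℝ) ≤ EB n p + K0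

def St_E4_padic : Prop := ∃ K0 : ℝ, 0 ≤ K0 ∧ ∀ n : ℕ, 200 ≤ n → ∀ p : ℕ, p.Prime → n < 50 * p → 144 * n < p ^ 2 →
    ∀ (q : ℕ) (α β γ : ℕ → ℚ), UInt q α → UInt q β → UInt q γ → (∀ i < 3, β i = 0) → (∀ i < 5, γ i = 0) →
    ((padicNorm p ((q : ℚ) ^ (72 * n - 72) * DD n α β γ) : ℚ) : ℝ) ≤
      if p < 4 * n then (p : ℝ) ^ (EW n p + K0) else 1

def St_F2_A : Prop := Tendsto (fun n : ℕ => (∑ p ∈ PS (1 / 50) (4 / 3) n, EA n p * Real.log p) / (n : ℝ) ^ 2) atTop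
    (𝓝 ((LA : ℝ) - 768 * Real.log (200 / 3)))

def St_F2_B : Prop := Tendsto (fun n : ℕ => (∑ p ∈ PS (4 / 3) 4 n, EB n p * Real.log p) / (n : ℝ) ^ 2) atTop
    (𝓝 (LB : ℝ))

def St_F2_U : Prop := Tendsto (fun n : ℕ => (∑ p ∈ PS (1 / 50) 144 n,
      (∑ j ∈ Finset.Icc 1 7200, (1 / 2 * tn (144 * n) j p + 3 / 2 * tn (48 * n) j p)) * Real.log p) / (n : ℝ) ^ 2)
    atTop (𝓝 (LU : ℝ))

/-- the value is `23301.5..` -/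
def St_F3_numeric : Prop := LA + LB + LU ≤ 2330200 / 100

def St_F4_small : Prop := ∀ ε : ℝ, 0 < ε → ∀ᶠ n : ℕ in atTop,
    72 * (n : ℝ) * (∑ p ∈ (Finset.range (n + 1)).filter (fun p : ℕ => p.Prime ∧ p ^ 2 ≤ 144 * n),
        144 * Real.log (144 * n + 1) +
      ∑ p ∈ (Finset.range (n + 1)).filter (fun p : ℕ => p.Prime ∧ 50 * p ≤ n), 64 * Real.log p) ≤
    (2304 / 25 + ε) * (n : ℝ) ^ 2

def St_F5_fact : Prop := ∀ᶠ n : ℕ in atTop,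
    ∑ p ∈ (Finset.range (n + 1)).filter (fun p : ℕ => p.Prime ∧ 50 * p ≤ n),
      (∑ i ∈ Finset.range (72 * n - 72), Real.log ((padicNorm p (((2 * i - 1).factorial : ℕ) : ℚ) : ℚ) : ℝ) +
       3 * ∑ i ∈ Finset.range (24 * n - 24), Real.log ((padicNorm p (((2 * i - 1).factorial : ℕ) : ℚ) : ℚ) : ℝ)) ≤
    - (∑ i ∈ Finset.range (72 * n - 72), Real.log ((2 * i - 1).factorial : ℝ) +
       3 * ∑ i ∈ Finset.range (24 * n - 24), Real.log ((2 * i - 1).factorial : ℝ)) +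
      ∑ p ∈ PS (1 / 50) 144 n,
        (∑ j ∈ Finset.Icc 1 7200, (1 / 2 * tn (144 * n) j p + 3 / 2 * tn (48 * n) j p)) * Real.log p

def St_F6_superfac : Prop := ∀ ε : ℝ, 0 < ε → ∀ᶠ n : ℕ in atTop,
    6912 * (n : ℝ) ^ 2 * Real.log n + (27648 * Real.log 2 + 12096 * Real.log 3 - 10368 - ε) * (n : ℝ) ^ 2 ≤
      ∑ i ∈ Finset.range (72 * n - 72), Real.log ((2 * i - 1).factorial : ℝ) +
       3 * ∑ i ∈ Finset.range (24 * n - 24), Real.log ((2 * i - 1).factorial : ℝ)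

/-- **the p-adic part** (the true constant is `-1918.6`) -/
def St_P_main : Prop := ∀ (q : ℕ) (α β γ : ℕ → ℚ), UInt q α → UInt q β → UInt q γ → (∀ i < 3, β i = 0) →
    (∀ i < 5, γ i = 0) → ∀ᶠ n : ℕ in atTop, DD n α β γ ≠ 0 →
    ∑ p ∈ (Finset.range (144 * n + 1)).filter Nat.Prime,
      Real.log ((padicNorm p ((q : ℚ) ^ (72 * n - 72) * DD n α β γ) : ℚ) : ℝ) ≤
    -(6912 * (n : ℝ) ^ 2 * Real.log n) - 1900 * (n : ℝ) ^ 2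

def St_P_large : Prop := ∀ (q : ℕ) (α β γ : ℕ → ℚ), UInt q α → UInt q β → UInt q γ → (∀ i < 3, β i = 0) →
    (∀ i < 5, γ i = 0) → ∀ n : ℕ, 1 ≤ n → ∀ p : ℕ, p.Prime → 144 * n < p →
    padicNorm p ((q : ℚ) ^ (72 * n - 72) * DD n α β γ) ≤ 1

/-! ### archimedean part -/

/-- the relations between the values -/
def Rel (α β γ : ℕ → ℚ) (θ₁ θ₂ : ℝ) : Prop :=
  ∀ i, Odd i → 3 ≤ i → i ≤ 63 → zr i = (α i : ℝ) + θ₁ * (β i : ℝ) + θ₂ * (γ i : ℝ)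

def St_B1_hasSum : Prop := ∀ {n : ℕ}, 10 ≤ n → ∀ (α β γ : ℕ → ℚ) (θ₁ θ₂ : ℝ), Rel α β γ θ₁ θ₂ →
    ∀ (Q : ℚ[X]), Q.natDegree ≤ 96 * n →
    HasSum (fun t : ℕ => wv n (2 * n + 1 + t) * ((Q.eval (((2 * n + 1 + t : ℕ) : ℚ) ^ 2) : ℚ) : ℝ))
      (((AL n α Q : ℚ) : ℝ) + θ₁ * ((BL n β Q : ℚ) : ℝ) + θ₂ * ((BL n γ Q : ℚ) : ℝ))

def St_G0_zq_inj : Prop := ∀ {n : ℕ}, 40 ≤ n → Set.InjOn (zq n) (Finset.range (72 * n - 72)) ∧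
    Set.InjOn (zq n) (Finset.Ico (72 * n - 72) (96 * n - 96))

def St_G0_nd_X : Prop := ∀ {n i : ℕ}, 40 ≤ n → 20 * n - 1 ≤ i → i < 24 * n - 24 →
    22000 * n ≤ nd n i ∧ nd n i < 33180 * n

def St_G0_nd_Y : Prop := ∀ {n i : ℕ}, 40 ≤ n → 24 * n - 24 ≤ i → i < 96 * n - 96 →
    0 ≤ nd n i ∧ nd n i < 1814 * n

def St_G1_entryN : Prop := ∀ {n : ℕ}, 40 ≤ n → ∀ (α β γ : ℕ → ℚ) (θ₁ θ₂ : ℝ), Rel α β γ θ₁ θ₂ → ∀ (MM : ℝ), 0 ≤ MM →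
    (∀ v : ℕ, 22 * n ≤ v →
      wv n v * Real.exp (Lp n (Finset.range (72 * n - 72)) (1000 * v) + Lp n (Finset.range (24 * n - 24)) (1000 * v)) ≤
        MM / (v : ℝ) ^ 2) →
    ∀ (i j : ℕ), i < 72 * n - 72 → j < 24 * n - 24 →
    |((AL n α (lag (Finset.range (72 * n - 72)) (zq n) i * lag (Finset.range (24 * n - 24)) (zq n) j) : ℚ) : ℝ) + θ₁ *
      ((BL n β (lag (Finset.range (72 * n - 72)) (zq n) i * lag (Finset.range (24 * n - 24)) (zq n) j) : ℚ) : ℝ) + θ₂ *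
      ((BL n γ (lag (Finset.range (72 * n - 72)) (zq n) i * lag (Finset.range (24 * n - 24)) (zq n) j) : ℚ) : ℝ)| ≤
    (if j < 20 * n - 1 then wv n (2 * n + 1 + j) *
      Real.exp (Lp n (Finset.range (72 * n - 72)) (1000 * (2 * n + 1 + j)) +
        Lp n (Finset.range (24 * n - 24)) (1000 * (2 * n + 1 + j))) else 0) + 1000 * MM

def St_G2_entryY : Prop := ∀ (β : ℕ → ℚ), ∃ C : ℝ, 0 < C ∧ ∀ n : ℕ, 40 ≤ n → ∀ MY : ℝ,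
    (∀ u : ℤ, |u| ≤ 2 * n → n * phi (1000 * (u : ℝ) / n) + Lp n (Finset.range (72 * n - 72)) (1000 * u) +
      Lp n (Finset.Ico (72 * n - 72) (96 * n - 96)) (1000 * u) ≤ MY) →
    ∀ i < 72 * n - 72, ∀ j, 72 * n - 72 ≤ j → j < 96 * n - 96 →
    |((BL n β (lag (Finset.range (72 * n - 72)) (zq n) i *
      lag (Finset.Ico (72 * n - 72) (96 * n - 96)) (zq n) j) : ℚ) : ℝ)| ≤
      Real.exp (MY + C * Real.log n)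

def St_G3_Lp : Prop := ∃ C : ℝ, 0 < C ∧ ∀ n : ℕ, 40 ≤ n → ∀ a b : ℕ, a ≤ b → b ≤ 96 → ∀ u : ℤ,
    |Lp n (Finset.Ico (a * (n - 1)) (b * (n - 1))) u -
      (n * ∑ g ∈ Finset.Ico a b, Ub g ((u : ℝ) / n) + 2 * (b - a) * n * Real.log n)| ≤ C * Real.log (n + |(u : ℝ)|)

def St_G4_weight : Prop := ∃ C : ℝ, 0 < C ∧ ∀ n : ℕ, 40 ≤ n → ∀ v : ℕ, 2 * n < v →
    |Real.log (wv n v) - n * phi (1000 * (v : ℝ) / n)| ≤ C * Real.log (n + v)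

def St_G5_sat : Prop := ∃ C : ℝ, 0 < C ∧ ∀ n : ℕ, 40 ≤ n →
    ∑ i ∈ Finset.range (20 * n - 1), (Real.log (wv n (2 * n + 1 + i)) +
      Lp n (Finset.range (20 * n - 1)) (1000 * (2 * n + 1 + i))) ≤
      eS * (n : ℝ) ^ 2 + 800 * (n : ℝ) ^ 2 * Real.log n + C * n * Real.log n

def St_G6_pair : Prop := ∃ C : ℝ, 0 < C ∧ ∀ n : ℕ, 40 ≤ n → ∀ g < 96, ∀ h < 96,
    |∑ j ∈ Finset.range (n - 1), Lp n (Finset.Ico (h * (n - 1)) ((h + 1) * (n - 1))) (bb g * n + cc g * (j : ℤ)) -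
      (en g h * (n : ℝ) ^ 2 + 2 * (n : ℝ) ^ 2 * Real.log n)| ≤ C * n * Real.log n

/-- the columns `B` and `C` use the same nodes, hence the weight `2` -/
def St_G6_cross : Prop := ∀ {n : ℕ}, 40 ≤ n →
    (Real.log (VD (Finset.range (72 * n - 72)) (zq n)) + Real.log (VD (Finset.range (24 * n - 24)) (zq n)) +
      2 * Real.log (VD (Finset.Ico (72 * n - 72) (96 * n - 96)) (zq n))) / 2 ≥
    ∑ i ∈ Finset.range (20 * n - 1), (Lp n (Finset.range (72 * n - 72)) (nd n i) +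
      Lp n (Finset.range (24 * n - 24)) (nd n i) - Lp n (Finset.range (20 * n - 1)) (nd n i)) +
    ∑ i ∈ Finset.Ico (20 * n - 1) (24 * n - 24), Lp n (Finset.Ico (20 * n - 1) (72 * n - 72)) (nd n i) +
    1 / 2 * ∑ i ∈ Finset.Ico (24 * n - 24) (72 * n - 72), Lp n (Finset.Ico (24 * n - 24) (72 * n - 72)) (nd n i) +
    ∑ i ∈ Finset.Ico (72 * n - 72) (96 * n - 96), Lp n (Finset.Ico (72 * n - 72) (96 * n - 96)) (nd n i)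
      - 400 * n * Real.log (400 * n)

/-- value `-138.527` at `27500` -/
def St_V1_upper : Prop := ∀ (w : ℝ), 22000 ≤ w → FN w ≤ -(1382 / 10)

def St_V1_tail : Prop := ∀ (w : ℝ), 100000 ≤ w → FN w ≤ -(1382 / 10) - 4 * (Real.log w - Real.log 100000)

/-- minimum `-138.528` at `22000` -/
def St_V2_lower : Prop := ∀ (w : ℝ), 2000 ≤ w → w ≤ 22000 → -(1389 / 10) ≤ FN w

/-- maximum `221.83` at `888` -/
def St_V3_upperY : Prop := ∀ (w : ℝ), -2000 ≤ w → w ≤ 2000 → FY w ≤ 2225 / 10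

/-- value `-8022.985` -/
def St_V4_eS : Prop := eS ≤ -(80225 / 10)

/-- value `287.198` -/
def St_V5_eN : Prop := 2862 / 10 ≤ eN

/-- **the archimedean part** (the constants above give `1832.5`) -/
def St_A_main : Prop := ∀ (α β γ : ℕ → ℚ) (θ₁ θ₂ : ℝ), Rel α β γ θ₁ θ₂ →
    ∀ᶠ n : ℕ in atTop, DD n α β γ ≠ 0 →
    Real.log |((DD n α β γ : ℚ) : ℝ)| ≤ 6912 * (n : ℝ) ^ 2 * Real.log n + 1850 * (n : ℝ) ^ 2

/-! ### non-vanishing at `n = p` -/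

def St_H2_pa : Prop := ∀ {p : ℕ} [Fact p.Prime], 400 ≤ p → ∀ (r : ℕ), 1 ≤ r → 2 * r < p →
    ∃ w : ℚ, padicNorm p w = 1 ∧ ∀ e j i : ℕ, e ≤ 190 → j ≤ 3 → 1 ≤ i → i ≤ 64 →
      padicNorm p (pa (sM p) mM (PM p * EM p (XN p r ^ e * OT p r 192)) (r + j * p) i
        / (p : ℚ) ^ (i + e) -
        w * (-2 * r) ^ e * PowerSeries.coeff (64 - i) (ser j e)) ≤ (p : ℚ)⁻¹

def St_H3_diag : Prop := ∀ {p : ℕ} [Fact p.Prime], 400 ≤ p → ∀ (r : ℕ), 1 ≤ r → 2 * r < p →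
    ∃ w : ℚ, padicNorm p w = 1 ∧
      (∀ (α : ℕ → ℚ), (∀ i, padicNorm p (α i) ≤ 1) → ∀ e : ℕ, e ≤ 190 →
        padicNorm p ((p : ℚ) ^ (-(e : ℤ)) * AL p α (XN p r ^ e * OT p r 192) -
          w * (-2 * r) ^ e * Fm e) ≤ (p : ℚ)⁻¹) ∧
      (∀ (β : ℕ → ℚ) (i0 : ℕ), (∀ i, padicNorm p (β i) ≤ 1) → Odd i0 → i0 ≤ 63 → (∀ i < i0, β i = 0) →
        ∀ e : ℕ, e ≤ 190 →
        padicNorm p ((p : ℚ) ^ (-(e : ℤ) - i0) * BL p β (XN p r ^ e * OT p r 192) -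
          w * (-2 * r) ^ e * (β i0 * Bm i0 e)) ≤ (p : ℚ)⁻¹)

def St_H4_offdiag : Prop := ∀ {p : ℕ} [Fact p.Prime], 400 ≤ p →
    ∀ (r s l l' : ℕ), 1 ≤ r → 2 * r < p → 1 ≤ s → 2 * s < p → r ≠ s → l < 144 → l' < 48 →
    (∀ (α : ℕ → ℚ), (∀ i, padicNorm p (α i) ≤ 1) →
      padicNorm p ((p : ℚ) ^ (-(l : ℤ) - (l' : ℤ)) * AL p α
        ((XN p r ^ l * OT p r 144) * (XN p s ^ l' * OT p s 48))) ≤ (p : ℚ)⁻¹) ∧
    (∀ (β : ℕ → ℚ) (i0 : ℕ), (∀ i, padicNorm p (β i) ≤ 1) → (∀ i < i0, β i = 0) →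
      padicNorm p ((p : ℚ) ^ (-(l : ℤ) - (l' : ℤ) - i0) * BL p β
        ((XN p r ^ l * OT p r 144) * (XN p s ^ l' * OT p s 48))) ≤ (p : ℚ)⁻¹)

/-- both determinants are nonzero modulo 65537, 10007, 1000003 (computed) -/
def St_H5_local : Prop := ∀ i0 : ℕ, i0 = 5 ∨ i0 = 7 →
    (Matrix.of fun l l' : Fin 144 => if l'.1 < 48 then Fm (l.1 + l'.1) else
      if l'.1 < 96 then Bm 3 (l.1 + (l'.1 - 48)) else Bm i0 (l.1 + (l'.1 - 96))).det ≠ 0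

def St_H6_nonvanish : Prop := ∀ (α β γ : ℕ → ℚ) (q i0 : ℕ), UInt q α → UInt q β → UInt q γ →
    (∀ i < 3, β i = 0) → β 3 ≠ 0 → (i0 = 5 ∨ i0 = 7) → (∀ i < i0, γ i = 0) → γ i0 ≠ 0 →
    ∃ p0 : ℕ, ∀ p : ℕ, p0 ≤ p → p.Prime → DD p α β γ ≠ 0

/-! ### conclusion -/

def St_Z1_dim : Prop := Irrational (zr 3) → Pool.Agent.Dim7.St_Z_main →
    Module.finrank ℚ (Submodule.span ℚ
      (Set.range fun i : Fin 32 => if i.1 = 0 then (1 : ℝ) else zr (2 * i.1 + 1))) < 4 →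
    ∃ (θ₁ θ₂ : ℝ) (α β γ : ℕ → ℚ) (q i0 : ℕ), UInt q α ∧ UInt q β ∧ UInt q γ ∧ (∀ i < 3, β i = 0) ∧ β 3 ≠ 0 ∧
      (i0 = 5 ∨ i0 = 7) ∧ (∀ i < i0, γ i = 0) ∧ γ i0 ≠ 0 ∧ Rel α β γ θ₁ θ₂

def St_Z_main : Prop := 4 ≤ Module.finrank ℚ (Submodule.span ℚ
      (Set.range fun i : Fin 32 => if i.1 = 0 then (1 : ℝ) else zr (2 * i.1 + 1)))

end

end Pool.Agent.Run7.h851.T
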