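import Pool.Agent.H337R2.Med
import Pool.Agent.H337R2.PsiCert3
import Pool.Agent.H574R2.D3.Defs
import Pool.Agent.H337R2.LZ.Defs

/-!
# Four Q-linearly independent numbers among `1, ζ(3), ζ(5), ..., ζ(63)`: definitions

`R(t) = ((4n)!)^64 (2t+4n) / ∏_{k=0}^{4n} (t+k)^64`, `x(t) = (t+2n)^2`. With `v = t + 2n`: poles `|v| ≤ 2n` of order 64,
no zeros. The numerator is multiplied by `x^128 Q(x)`. Three kinds of columns (`A`, `B`, `C`).
This is a port of `Pool/Agent/Dim7` (there: order 8, poles `|v| ≤ 5n`, zeros `5n < |v| ≤ 8n`, two kinds of columns).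
-/

open Polynomial Pool.Agent.H337R2

namespace Pool.Agent.Run7.h851.T

noncomputable section

/-- mixed Hankel determinant of size `3m` with three kinds of columns -/
def MD (A B C' : ℚ[X] →ₗ[ℚ] ℚ) (m : ℕ) : ℚ :=
  (Matrix.of fun i j : Fin (3 * m) =>
    if j.1 < m then A (X ^ (i.1 + j.1)) else if j.1 < 2 * m then B (X ^ (i.1 + (j.1 - m)))
    else C' (X ^ (i.1 + (j.1 - 2 * m)))).det

/-- common denominators -/
abbrev UInt := Pool.Agent.H574R2.D3.UInt

/-- `y(y+1)/2` for `y > 0` -/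
abbrev T1 := Pool.Agent.H574R2.D3.T1

/-- `⌊3(y+1)²/8⌋` for `y > 0`: the minimum over `ν` of `T1 ν + 3 T1 (y - ν)` -/
def T4 (y : ℤ) : ℤ := if 0 < y then 3 * (y + 1) ^ 2 / 8 else 0

/-- tents `(a - j p)^+` -/
abbrev tn := Pool.Agent.H574R2.D3.tn

/-- `∫_{lo}^{hi} (α - j y)_+ dy` -/
abbrev It := Pool.Agent.H574R2.D3.It

/-- limit of the floor sums (`J` terms) -/
abbrev Ifl := Pool.Agent.H574R2.D3.Ifl

/-- polynomials with zeros (in `v`) at `0, ±1, ±2, ...` -/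
abbrev CP := Pool.Agent.H574R2.D3.CP

/-- the poles are at `-k`, `0 ≤ k ≤ 4n` -/
abbrev sM (n : ℕ) : Finset ℕ := Finset.Icc 0 (4 * n)

/-- all poles have order 64 -/
abbrev mM : ℕ → ℕ := fun _ => 64

/-- `((4n)!)^64` -/
def cM (n : ℕ) : ℚ := ((4 * n).factorial : ℚ) ^ 64

/-- numerator -/
def PM (n : ℕ) : ℚ[X] := C (cM n) * (2 * X + C ((4 * n : ℕ) : ℚ))

/-- `x(t) = (t + 2n)^2` -/
def xM (n : ℕ) : ℚ[X] := (X + C ((2 * n : ℕ) : ℚ)) ^ 2

/-- `x^128 Q(x)` as a polynomial in `t` -/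
def EM (n : ℕ) (Q : ℚ[X]) : ℚ[X] := (X ^ 128 * Q).comp (xM n)

/-- coefficient of `ζ(i)` -/
def rho (n : ℕ) (P : ℚ[X]) (i : ℕ) : ℚ := ∑ k ∈ sM n, pa (sM n) mM P k i

/-- the linear form with `ζ(i)` replaced by `α i` -/
def xa (n : ℕ) (α : ℕ → ℚ) (P : ℚ[X]) : ℚ :=
  ∑ i ∈ Finset.Icc 1 64, (rho n P i * α i - ∑ k ∈ sM n, pa (sM n) mM P k i * hs i k)

/-- the linear form in the coefficients -/
def xb (n : ℕ) (β : ℕ → ℚ) (P : ℚ[X]) : ℚ := ∑ i ∈ Finset.Icc 1 64, rho n P i * β i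

lemma pa_add (s : Finset ℕ) (μ : ℕ → ℕ) (P Q : ℚ[X]) (k i : ℕ) :
    pa s μ (P + Q) k i = pa s μ P k i + pa s μ Q k i :=
  Pool.Agent.H574R2.D3.pa_add s μ P Q k i

lemma pa_C_mul (s : Finset ℕ) (μ : ℕ → ℕ) (c : ℚ) (P : ℚ[X]) (k i : ℕ) :
    pa s μ (C c * P) k i = c * pa s μ P k i :=
  Pool.Agent.H574R2.D3.pa_C_mul s μ c P k i

lemma rho_add (n : ℕ) (P Q : ℚ[X]) (i : ℕ) : rho n (P + Q) i = rho n P i + rho n Q i := by
  unfold rho
  rw [← Finset.sum_add_distrib]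
  exact Finset.sum_congr rfl fun k _ => pa_add _ _ _ _ _ _

lemma rho_C_mul (n : ℕ) (c : ℚ) (P : ℚ[X]) (i : ℕ) : rho n (C c * P) i = c * rho n P i := by
  unfold rho
  rw [Finset.mul_sum]
  exact Finset.sum_congr rfl fun k _ => pa_C_mul _ _ _ _ _ _

lemma xa_add (n : ℕ) (α : ℕ → ℚ) (P Q : ℚ[X]) : xa n α (P + Q) = xa n α P + xa n α Q := by
  unfold xa
  rw [← Finset.sum_add_distrib]
  apply Finset.sum_congr rfl
  intro i _
  simp only [rho_add, pa_add, add_mul, Finset.sum_add_distrib]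
  ring

lemma xa_C_mul (n : ℕ) (α : ℕ → ℚ) (c : ℚ) (P : ℚ[X]) : xa n α (C c * P) = c * xa n α P := by
  unfold xa
  rw [Finset.mul_sum]
  apply Finset.sum_congr rfl
  intro i _
  simp only [rho_C_mul, pa_C_mul, mul_sub, Finset.mul_sum]
  congr 1
  · ring
  · exact Finset.sum_congr rfl fun k _ => by ring

lemma xb_add (n : ℕ) (β : ℕ → ℚ) (P Q : ℚ[X]) : xb n β (P + Q) = xb n β P + xb n β Q := by
  unfold xb
  rw [← Finset.sum_add_distrib]
  exact Finset.sum_congr rfl fun i _ => by rw [rho_add, add_mul]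

lemma xb_C_mul (n : ℕ) (β : ℕ → ℚ) (c : ℚ) (P : ℚ[X]) : xb n β (C c * P) = c * xb n β P := by
  unfold xb
  rw [Finset.mul_sum]
  exact Finset.sum_congr rfl fun i _ => by rw [rho_C_mul, mul_assoc]

lemma EM_add (n : ℕ) (P Q : ℚ[X]) : EM n (P + Q) = EM n P + EM n Q := by
  unfold EM
  rw [mul_add, Polynomial.add_comp]

lemma EM_C_mul (n : ℕ) (c : ℚ) (P : ℚ[X]) : EM n (C c * P) = C c * EM n P := by
  unfold EM
  rw [mul_left_comm, Polynomial.mul_comp, Polynomial.C_comp]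

/-- the functional `A` -/
def AL (n : ℕ) (α : ℕ → ℚ) : ℚ[X] →ₗ[ℚ] ℚ where
  toFun Q := xa n α (PM n * EM n Q)
  map_add' P Q := by rw [EM_add, mul_add, xa_add]
  map_smul' c P := by
    rw [RingHom.id_apply, Polynomial.smul_eq_C_mul, EM_C_mul, mul_left_comm, xa_C_mul, smul_eq_mul]

/-- the functionals `B` and `C` -/
def BL (n : ℕ) (β : ℕ → ℚ) : ℚ[X] →ₗ[ℚ] ℚ where
  toFun Q := xb n β (PM n * EM n Q)
  map_add' P Q := by rw [EM_add, mul_add, xb_add]
  map_smul' c P := by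
    rw [RingHom.id_apply, Polynomial.smul_eq_C_mul, EM_C_mul, mul_left_comm, xb_C_mul, smul_eq_mul]

lemma AL_apply (n : ℕ) (α : ℕ → ℚ) (Q : ℚ[X]) : AL n α Q = xa n α (PM n * EM n Q) := rfl

lemma BL_apply (n : ℕ) (β : ℕ → ℚ) (Q : ℚ[X]) : BL n β Q = xb n β (PM n * EM n Q) := rfl

/-- the determinant of size `72n-72` -/
def DD (n : ℕ) (α β γ : ℕ → ℚ) : ℚ := MD (AL n α) (BL n β) (BL n γ) (24 * n - 24)

/-- number of poles congruent to `-k` -/
def Np (n p k : ℕ) : ℕ := cnt p 0 (4 * n) k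

/-- order at `p` of the constant `cM` (for `p^2 > 4 n`) -/
def oM (n p : ℕ) : ℤ := 64 * ((4 * n / p : ℕ) : ℤ)

/-- the total order of the class -/
def fM (n p k : ℕ) : ℤ := 64 * (Np n p k : ℤ)

/-- the exponent `e_p(k)` -/
def eM (n p k : ℕ) : ℤ := fM n p k - oM n p

/-- representative of the class pair of `k` (for `k ≤ 4 n`) -/
def kap (n p k : ℕ) : ℕ := min (k % p) ((4 * n - k) % p)

/-- the set of class pairs (`p ≤ 4 n`) -/
def Kset (n p : ℕ) : Finset ℕ := (Finset.range p).filter fun r => r ≤ (4 * n - r) % p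

/-- lower sites `a` of the classes with exactly two poles `a`, `a + p`, one for each class pair (`4 n / 3 < p < 4 n`) -/
def Alow (n p : ℕ) : Finset ℕ :=
  (Finset.Icc 0 (4 * n - p)).filter fun a => 2 * a + p < 4 * n ∧ a < p ∧ 4 * n < a + 2 * p

/-- middle sites of the classes with three poles `c - p`, `c`, `c + p`, one for each class pair (`4 n / 3 < p < 2 n`) -/
def Amid (n p : ℕ) : Finset ℕ := (Finset.Icc p (4 * n - p)).filter fun c => c ≤ 2 * n

/-- exponent for `n/50 < p ≤ 4n/3` -/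
def EA (n p : ℕ) : ℝ :=
  2952 * n - 4608 * (n * ((4 * n / p : ℕ) : ℝ)) - 768 * (n ^ 2 / p) + 3 / 64 * p +
    1536 * ∑ j ∈ Finset.Icc 1 200, tn (4 * n) j p

/-- exponent for `4n/3 < p < 4n` -/
def EB (n p : ℕ) : ℝ := if p ≤ 2 * n then 9698 * n - 7397 * p else 3608 * n - 2048 * p

/-- the exponent -/
def EW (n p : ℕ) : ℝ := if 3 * p ≤ 4 * n then EA n p else EB n p

/-- primes between `lo n` and `hi n` -/
def PS (lo hi : ℝ) (n : ℕ) : Finset ℕ := by
  classical exact (Finset.range (145 * n)).filter (fun p : ℕ => p.Prime ∧ lo * n < p ∧ (p : ℝ) < hi * n)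

/-- rational part of the limit for `n/50 < p < 4n/3` -/
def LA : ℚ := 2952 * (4 / 3 - 1 / 50) - 4608 * Ifl 4 200 (1 / 50) (4 / 3) + 3 / 128 * ((4 / 3) ^ 2 - (1 / 50) ^ 2) +
  1536 * ∑ j ∈ Finset.Icc 1 200, It 4 j (1 / 50) (4 / 3)

/-- limit for `4n/3 < p < 4n` -/
def LB : ℚ := -(61430 / 9)

def LU : ℚ := ∑ j ∈ Finset.Icc 1 7200, (1 / 2 * It 144 j (1 / 50) 144 + 3 / 2 * It 48 j (1 / 50) 144)

/-! ### Nodes for the archimedean part (coordinate `u = 1000 v`)

96 bricks of `n-1` nodes: `0..19` saturated (`v` from `2n` to `22n`), `20..23` the other nodes for the zeta part,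
`24..71` nodes of the rows in the pole part, `72..95` nodes of the columns `B` and `C` in the pole part. -/

/-- start of the brick `g` (divided by `n`) -/
def bb (g : ℕ) : ℤ :=
  if g < 20 then 2000 + 1000 * g
  else if g < 21 then 22000
  else if g < 22 then 23010
  else if g < 23 then 24430
  else if g < 24 then 26980
  else if g < 48 then 33 * (g - 24)
  else if g < 60 then 792 + 36 * (g - 48)
  else if g < 66 then 1224 + 38 * (g - 60)
  else if g < 70 then 1452 + 49 * (g - 66)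
  else if g < 72 then 1648 + 83 * (g - 70)
  else if g < 84 then 66 * (g - 72)
  else if g < 90 then 792 + 72 * (g - 84)
  else if g < 93 then 1224 + 76 * (g - 90)
  else if g < 95 then 1452 + 98 * (g - 93)
  else 1648

/-- step of the brick `g` -/
def cc (g : ℕ) : ℕ :=
  if g < 20 then 1000
  else if g < 21 then 1010
  else if g < 22 then 1420
  else if g < 23 then 2550
  else if g < 24 then 6200
  else if g < 48 then 33
  else if g < 60 then 36
  else if g < 66 then 38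
  else if g < 70 then 49
  else if g < 72 then 83
  else if g < 84 then 66
  else if g < 90 then 72
  else if g < 93 then 76
  else if g < 95 then 98
  else 166

/-- the nodes (times 1000), `i < 96 (n-1)`: `i < 20n-1` are the summation points `v = 2n+1+i`; the first `24(n-1)` nodes
are for the zeta part, the first `72(n-1)` for the rows, the last `24(n-1)` for the columns `B`, `C`; the brick of `i` is
`i / (n-1)` -/
def nd (n i : ℕ) : ℤ :=
  if i < 20 * n - 1 then 1000 * (2 * n + 1 + i) else bb (i / (n - 1)) * n + cc (i / (n - 1)) * ((i % (n - 1) : ℕ) : ℤ)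

/-- the nodes in the variable `x = v²` -/
def zq (n i : ℕ) : ℚ := ((nd n i : ℚ) / 1000) ^ 2

/-- `∏_{j ∈ s, j ≠ i} (X - z_j)` -/
abbrev lag := Pool.Agent.LZ.lag

/-- `∏_{i, j ∈ s, i ≠ j} |z_i - z_j|` -/
abbrev VD := Pool.Agent.LZ.VD

/-- the value `R(v) v^256` at an integer `v > 2n` -/
def wv (n v : ℕ) : ℝ :=
  ((4 * n).factorial : ℝ) ^ 64 * (2 * v) * ((v - 2 * n - 1).factorial / (v + 2 * n).factorial) ^ 64 * (v : ℝ) ^ 256

/-- `∑ log |x - z_i|` at `x = (u/1000)²` over the nodes with index in `s` (with `Real.log 0 = 0`) -/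
def Lp (n : ℕ) (s : Finset ℕ) (u : ℤ) : ℝ :=
  ∑ i ∈ s, (Real.log (((u - nd n i : ℤ) : ℝ) / 1000) + Real.log (((u + nd n i : ℤ) : ℝ) / 1000))

/-- potential of the brick `g` (with its mirror image) -/
def Ub (g : ℕ) (w : ℝ) : ℝ :=
  ((Psi (w - bb g) - Psi (w - bb g - cc g)) + (Psi (w + bb g + cc g) - Psi (w + bb g))) / cc g - 2 * Real.log 1000

/-- `log R(v) = n φ(1000 v / n) + O(log n)` -/
def phi (w : ℝ) : ℝ :=
  -64 * (Psi (w + 2000) - Psi (w - 2000)) / 1000 + 1280 * Real.log 2 + 768 * Real.log 5 - 256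

/-- total potentials -/
def FN (w : ℝ) : ℝ := phi w + 2 * ∑ g ∈ Finset.range 24, Ub g w + ∑ g ∈ Finset.Ico 24 72, Ub g w

def FY (w : ℝ) : ℝ := phi w + ∑ g ∈ Finset.range 24, Ub g w + ∑ g ∈ Finset.Ico 24 72, Ub g w +
  ∑ g ∈ Finset.Ico 72 96, Ub g w

/-- antiderivative of `Ψ` -/
abbrev GG := Pool.Agent.LZ.GG

/-- mutual energy of two bricks (with mirror images) -/
def en (g h : ℕ) : ℝ :=
  ((GG (bb g + cc g - bb h) - GG (bb g + cc g - bb h - cc h) - GG (bb g - bb h) + GG (bb g - bb h - cc h)) +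
    (GG (bb g + cc g + bb h + cc h) - GG (bb g + cc g + bb h) - GG (bb g + bb h + cc h) + GG (bb g + bb h))) /
    (cc g * cc h) - 2 * Real.log 1000

/-- `∫_2000^22000 φ / 1000` -/
def iphi : ℝ :=
  (-64 * ((GG 24000 - GG 4000) - (GG 20000 - GG 0)) / 1000 +
    20000 * (1280 * Real.log 2 + 768 * Real.log 5 - 256)) / 1000

/-- saturated part of the energy -/
def eS : ℝ := iphi + ∑ g ∈ Finset.range 20, ∑ h ∈ Finset.range 20, en g h

/-- energy of the other nodes -/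
def eN : ℝ := ∑ g ∈ Finset.Ico 20 24, ∑ h ∈ Finset.Ico 20 24, en g h +
  ∑ g ∈ Finset.Ico 20 24, ∑ h ∈ Finset.Ico 24 72, en g h +
  1 / 2 * ∑ g ∈ Finset.Ico 24 72, ∑ h ∈ Finset.Ico 24 72, en g h +
  ∑ g ∈ Finset.Ico 72 96, ∑ h ∈ Finset.Ico 72 96, en g h

/-! ### Local objects for the non-vanishing at `n = p` -/

/-- node polynomial `x - x(-r)` -/
def XN (n r : ℕ) : ℚ[X] := X - C (((2 * n : ℕ) : ℚ) - r) ^ 2

/-- local power series at the pole `j` (non-vanishing, `n = p`) -/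
def ser (j e : ℕ) : PowerSeries ℚ :=
  (∏ b ∈ (Finset.Icc 0 3).erase j, iv ((b : ℚ) - j) ^ 64) * (PowerSeries.X + PowerSeries.C (-(j : ℚ))) ^ e

/-- local functional `A` on monomials -/
def Fm (e : ℕ) : ℚ :=
  - ∑ j ∈ Finset.Icc 0 3, ∑ i ∈ Finset.Icc 1 64,
    PowerSeries.coeff (64 - i) (ser j e) * (hs i j + (-1) ^ (i + 1) * hs i (3 - j))

/-- local functionals `B`, `C` on monomials -/
def Bm (i0 e : ℕ) : ℚ := 2 * ∑ j ∈ Finset.Icc 0 3, PowerSeries.coeff (64 - i0) (ser j e)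

/-- the other class pairs, with multiplicity `c` -/
def OT (p r c : ℕ) : ℚ[X] := ∏ r' ∈ (Finset.Icc 1 ((p - 1) / 2)).erase r, XN p r' ^ c

end

end Pool.Agent.Run7.h851.T
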