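import Pool.Agent.Run7.h851.T.Iface

/-!
# Z1: the linear algebra step
-/

open Polynomial Pool.Agent.H337R2

namespace Pool.Agent.Run7.h851.T

noncomputable section

namespace Z1

lemma denom (u : ℕ → ℚ) (hu : ∀ i, 64 ≤ i → u i = 0) (q : ℕ)
    (hq : ∀ i < 64, (u i).den ∣ q) (hq0 : 0 < q) : UInt q u := by
  refine ⟨hq0, fun i => ?_⟩
  by_cases hi : i < 64
  · obtain ⟨k, hk⟩ := hq i hi
    refine ⟨(u i).num * k, ?_⟩
    have h1 : (u i).num = u i * ((u i).den : ℚ) := (Rat.mul_den_eq_num _).symm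
    rw [hk]
    push_cast
    rw [h1]
    ring
  · exact ⟨0, by rw [hu i (not_lt.1 hi)]; simp⟩

/-- independence of `1, zr 3, x` -/
lemma indep (hirr : Irrational (zr 3)) (x : ℝ) (hx : ¬ ∃ a b : ℚ, x = (a : ℝ) + zr 3 * b) (a b c : ℚ)
    (h : (a : ℝ) + zr 3 * b + x * c = 0) : a = 0 ∧ b = 0 ∧ c = 0 := by
  have hc : c = 0 := by
    by_contra hc
    apply hx
    refine ⟨-a / c, -b / c, ?_⟩
    have hc' : (c : ℝ) ≠ 0 := by exact_mod_cast hc
    push_cast
    field_simp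
    linarith
  subst hc
  have hb : b = 0 := by
    by_contra hb
    apply hirr
    refine ⟨-a / b, ?_⟩
    have hb' : (b : ℝ) ≠ 0 := by exact_mod_cast hb
    push_cast
    field_simp
    push_cast at h
    linarith
  subst hb
  refine ⟨?_, rfl, rfl⟩
  push_cast at h
  have h2 : (a : ℝ) = 0 := by linarith
  exact_mod_cast h2

lemma core (i0 : ℕ) (hi0 : i0 = 5 ∨ i0 = 7)
    (hu : ∀ a b c : ℚ, (a : ℝ) + zr 3 * b + zr i0 * c = 0 → a = 0 ∧ b = 0 ∧ c = 0)
    (hlow : ∀ i, Odd i → 3 ≤ i → i < i0 → ∃ a b : ℚ, zr i = (a : ℝ) + zr 3 * b)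
    (hall : ∀ i, Odd i → 3 ≤ i → i ≤ 63 → ∃ a b c : ℚ, zr i = (a : ℝ) + zr 3 * b + zr i0 * c) :
    ∃ (θ₁ θ₂ : ℝ) (α β γ : ℕ → ℚ) (q i0 : ℕ), UInt q α ∧ UInt q β ∧ UInt q γ ∧ (∀ i < 3, β i = 0) ∧ β 3 ≠ 0 ∧
      (i0 = 5 ∨ i0 = 7) ∧ (∀ i < i0, γ i = 0) ∧ γ i0 ≠ 0 ∧ Rel α β γ θ₁ θ₂ := by
  classical
  have hex : ∀ i, ∃ abc : ℚ × ℚ × ℚ, (Odd i → 3 ≤ i → i ≤ 63 →
      zr i = (abc.1 : ℝ) + zr 3 * (abc.2.1 : ℝ) + zr i0 * (abc.2.2 : ℝ)) ∧
      (¬ (Odd i ∧ 3 ≤ i ∧ i ≤ 63) → abc = 0) := by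
    intro i
    by_cases hi : Odd i ∧ 3 ≤ i ∧ i ≤ 63
    · obtain ⟨a, b, c, h⟩ := hall i hi.1 hi.2.1 hi.2.2
      exact ⟨(a, b, c), fun _ _ _ => h, fun hn => absurd hi hn⟩
    · exact ⟨0, fun h1 h2 h3 => absurd ⟨h1, h2, h3⟩ hi, fun _ => rfl⟩
  choose f hf hf0 using hex
  -- uniqueness
  have huniq : ∀ i, Odd i → 3 ≤ i → i ≤ 63 → ∀ a b c : ℚ, zr i = (a : ℝ) + zr 3 * b + zr i0 * c →
      (f i).2.1 = b ∧ (f i).2.2 = c := by
    intro i h1 h2 h3 a b c h
    have h4 := hf i h1 h2 h3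
    obtain ⟨_, h6, h7⟩ := hu ((f i).1 - a) ((f i).2.1 - b) ((f i).2.2 - c) (by
      push_cast
      linarith)
    exact ⟨by linarith, by linarith⟩
  have hi0odd : Odd i0 := by rcases hi0 with rfl | rfl <;> decide
  have h3 := huniq 3 (by decide) (by norm_num) (by norm_num) 0 1 0 (by push_cast; ring)
  have h0 := huniq i0 hi0odd (by omega) (by omega) 0 0 1 (by push_cast; ring)
  have hout : ∀ i, 64 ≤ i → f i = 0 := fun i hi => hf0 i (fun h1 => by omega)
  have hlow3 : ∀ i < 3, f i = 0 := fun i hi => hf0 i (fun h1 => by omega)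
  set q : ℕ := ∏ i ∈ Finset.range 64, ((f i).1.den * ((f i).2.1.den * (f i).2.2.den)) with hq
  have hq0 : 0 < q := Finset.prod_pos fun i _ =>
    Nat.mul_pos (Rat.den_pos _) (Nat.mul_pos (Rat.den_pos _) (Rat.den_pos _))
  have hdvd : ∀ i < 64, (f i).1.den * ((f i).2.1.den * (f i).2.2.den) ∣ q := fun i hi =>
    Finset.dvd_prod_of_mem (fun i => (f i).1.den * ((f i).2.1.den * (f i).2.2.den)) (Finset.mem_range.2 hi)
  refine ⟨zr 3, zr i0, fun i => (f i).1, fun i => (f i).2.1, fun i => (f i).2.2, q, i0, ?_, ?_, ?_, ?_, ?_, hi0, ?_, ?_, ?_⟩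
  · exact denom _ (fun i hi => by simp only [hout i hi]; rfl) q
      (fun i hi => (Dvd.intro _ rfl).trans (hdvd i hi)) hq0
  · exact denom _ (fun i hi => by simp only [hout i hi]; rfl) q
      (fun i hi => ((Dvd.intro _ rfl).trans (Dvd.intro_left _ rfl)).trans (hdvd i hi)) hq0
  · exact denom _ (fun i hi => by simp only [hout i hi]; rfl) q
      (fun i hi => ((Dvd.intro_left _ rfl).trans (Dvd.intro_left _ rfl)).trans (hdvd i hi)) hq0
  · intro i hi
    show (f i).2.1 = 0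
    rw [hlow3 i hi]
    rfl
  · show (f 3).2.1 ≠ 0
    rw [h3.1]
    norm_num
  · intro i hi
    show (f i).2.2 = 0
    by_cases hi2 : Odd i ∧ 3 ≤ i
    · obtain ⟨a, b, hab⟩ := hlow i hi2.1 hi2.2 hi
      exact (huniq i hi2.1 hi2.2 (by omega) a b 0 (by rw [hab]; push_cast; ring)).2
    · rw [hf0 i (fun h1 => hi2 ⟨h1.1, h1.2.1⟩)]
      rfl
  · show (f i0).2.2 ≠ 0
    rw [h0.2]
    norm_num
  · intro i h1 h2 h4
    exact hf i h1 h2 h4

end Z1

theorem Z1_dim : St_Z1_dim := by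
  intro hirr hD h
  classical
  have hD' : 3 ≤ Module.finrank ℚ (Submodule.span ℚ
      (Set.range fun i : Fin 4 => if i.1 = 0 then (1 : ℝ) else zr (2 * i.1 + 1))) := hD
  set f : Fin 32 → ℝ := fun i => if i.1 = 0 then (1 : ℝ) else zr (2 * i.1 + 1) with hf
  set V := Submodule.span ℚ (Set.range f) with hV
  have hfin : FiniteDimensional ℚ V := by
    rw [hV]
    exact FiniteDimensional.span_of_finite ℚ (Set.finite_range f)
  have hmem : ∀ i, Odd i → 3 ≤ i → i ≤ 63 → zr i ∈ V := by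
    intro i hi h3 h7
    obtain ⟨k, rfl⟩ := hi
    refine Submodule.subset_span ⟨⟨k, by omega⟩, ?_⟩
    simp only [hf]
    rw [if_neg (by omega)]
  have h1mem : (1 : ℝ) ∈ V := Submodule.subset_span ⟨⟨0, by norm_num⟩, by simp [hf]⟩
  -- the key step
  have key : ∀ i0 : ℕ, Odd i0 → 3 ≤ i0 → i0 ≤ 63 →
      (∀ a b c : ℚ, (a : ℝ) + zr 3 * b + zr i0 * c = 0 → a = 0 ∧ b = 0 ∧ c = 0) →
      ∀ i, Odd i → 3 ≤ i → i ≤ 63 → ∃ a b c : ℚ, zr i = (a : ℝ) + zr 3 * b + zr i0 * c := by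
    intro i0 ho h3 h63 hu i hi1 hi2 hi3
    have hli : LinearIndependent ℚ ![(1 : ℝ), zr 3, zr i0] := by
      rw [Fintype.linearIndependent_iff]
      intro g hg
      rw [Fin.sum_univ_three] at hg
      simp only [Matrix.cons_val_zero, Matrix.cons_val_one, Matrix.cons_val, Rat.smul_def] at hg
      obtain ⟨e0, e1, e2⟩ := hu (g 0) (g 1) (g 2) (by linarith)
      intro j
      fin_cases j
      · exact e0
      · exact e1
      · exact e2
    have hle : Submodule.span ℚ (Set.range ![(1 : ℝ), zr 3, zr i0]) ≤ V := by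
      rw [Submodule.span_le]
      rintro _ ⟨j, rfl⟩
      fin_cases j
      · exact h1mem
      · exact hmem 3 (by decide) (by norm_num) (by norm_num)
      · exact hmem i0 ho h3 h63
    have heq : Submodule.span ℚ (Set.range ![(1 : ℝ), zr 3, zr i0]) = V := by
      apply Submodule.eq_of_le_of_finrank_le hle
      rw [finrank_span_eq_card hli, Fintype.card_fin]
      exact Nat.lt_succ_iff.1 h
    have h1 := hmem i hi1 hi2 hi3
    rw [← heq] at h1
    obtain ⟨g, hg⟩ := (Submodule.mem_span_range_iff_exists_fun ℚ).1 h1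
    rw [Fin.sum_univ_three] at hg
    simp only [Matrix.cons_val_zero, Matrix.cons_val_one, Matrix.cons_val, Rat.smul_def] at hg
    exact ⟨g 0, g 1, g 2, by rw [← hg]; ring⟩
  by_cases h5 : ∃ a b : ℚ, zr 5 = (a : ℝ) + zr 3 * b
  · by_cases h7 : ∃ a b : ℚ, zr 7 = (a : ℝ) + zr 3 * b
    · exfalso
      obtain ⟨a5, b5, e5⟩ := h5
      obtain ⟨a7, b7, e7⟩ := h7
      have hle : Submodule.span ℚ (Set.range fun i : Fin 4 => if i.1 = 0 then (1 : ℝ) else zr (2 * i.1 + 1)) ≤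
          Submodule.span ℚ (Set.range ![(1 : ℝ), zr 3]) := by
        have m1 : (1 : ℝ) ∈ Submodule.span ℚ (Set.range ![(1 : ℝ), zr 3]) := Submodule.subset_span ⟨0, rfl⟩
        have m3 : zr 3 ∈ Submodule.span ℚ (Set.range ![(1 : ℝ), zr 3]) := Submodule.subset_span ⟨1, rfl⟩
        have mm : ∀ a b : ℚ, (a : ℝ) + zr 3 * b ∈ Submodule.span ℚ (Set.range ![(1 : ℝ), zr 3]) := by
          intro a b
          have := add_mem (Submodule.smul_mem _ a m1) (Submodule.smul_mem _ b m3)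
          rw [Rat.smul_def, Rat.smul_def, mul_one, mul_comm] at this
          rwa [mul_comm (zr 3) (b : ℝ), mul_comm (b : ℝ) (zr 3)]
        rw [Submodule.span_le]
        rintro _ ⟨j, rfl⟩
        fin_cases j
        · simpa using m1
        · simpa using m3
        · simpa [e5] using mm a5 b5
        · simpa [e7] using mm a7 b7
      have h2 : Module.finrank ℚ (Submodule.span ℚ (Set.range ![(1 : ℝ), zr 3])) ≤ 2 := by
        have := finrank_range_le_card (R := ℚ) ![(1 : ℝ), zr 3]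
        rwa [Fintype.card_fin] at this
      have : FiniteDimensional ℚ (Submodule.span ℚ (Set.range ![(1 : ℝ), zr 3])) :=
        FiniteDimensional.span_of_finite ℚ (Set.finite_range _)
      have h3 := Submodule.finrank_mono hle
      omega
    · have hu := Z1.indep hirr (zr 7) h7
      exact Z1.core 7 (Or.inr rfl) hu (by
        intro i h1 h2 h3
        obtain ⟨k, hk⟩ := h1
        have : i = 3 ∨ i = 5 := by omega
        rcases this with rfl | rfl
        · exact ⟨0, 1, by push_cast; ring⟩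
        · exact h5) (key 7 (by decide) (by norm_num) (by norm_num) hu)
  · have hu := Z1.indep hirr (zr 5) h5
    exact Z1.core 5 (Or.inl rfl) hu (by
      intro i h1 h2 h3
      obtain ⟨k, hk⟩ := h1
      have : i = 3 := by omega
      subst this
      exact ⟨0, 1, by push_cast; ring⟩) (key 5 (by decide) (by norm_num) (by norm_num) hu)

end

end Pool.Agent.Run7.h851.T
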