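import Pool.Agent.Dim7.Main
import Pool.Agent.Run7.h531.T.A12
import Pool.Agent.Run7.h531.T.TPM
import Pool.Agent.Run7.h576.T.AM
import Pool.Agent.Run7.h292.T.B1
import Pool.Agent.Run7.h292.T.G0
import Pool.Agent.Run7.h292.T.G1
import Pool.Agent.Run7.h915.T.C1
import Pool.Agent.Run7.h915.T.C2
import Pool.Agent.Run7.h847.T.C3
import Pool.Agent.Run7.h847.T.G5
import Pool.Agent.Run7.h186.T.C4
import Pool.Agent.Run7.h950.T.D1
import Pool.Agent.Run7.h160.T.D3
import Pool.Agent.Run7.h160.T.D4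
import Pool.Agent.Run7.h216.T.E12
import Pool.Agent.Run7.h216.T.E3
import Pool.Agent.Run7.h228.T.F3
import Pool.Agent.Run7.h228.T.F46
import Pool.Agent.Run7.h228.T.F5
import Pool.Agent.Run7.h951.T.F2
import Pool.Agent.Run7.h232.T.G2
import Pool.Agent.Run7.h617.T.G3
import Pool.Agent.Run7.h617.T.G4
import Pool.Agent.Run7.h617.T.G6
import Pool.Agent.Run7.h617.T.G6c
import Pool.Agent.Run7.h136.T.H2
import Pool.Agent.Run7.h136.T.H3
import Pool.Agent.Run7.h136.T.H4
import Pool.Agent.Run7.h744.T.H5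
import Pool.Agent.Run7.h697.T.H6
import Pool.Agent.Run7.h697.T.V23
import Pool.Agent.Run7.h697.T.Mix
import Pool.Agent.Run7.h221.T.V1
import Pool.Agent.Run7.h201.T.V45
import Pool.Agent.Run7.h851.T.Z
import Pool.Agent.Run7.h851.T.Z1

/-!
# The parts of the proof put together

`P_main` (p-adic part), `A_main` (archimedean part), `H6_nonvanish` (non-vanishing at `n = p`) and the conclusion
`Z_main`: among `1, ζ(3), ζ(5), ..., ζ(63)` at least four numbers are linearly independent over `ℚ`.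
-/

namespace Pool.Agent.Run7.h851.T

noncomputable section

theorem C2_xa : St_C2_xa := h915.T.C2_xa_of h915.T.C1_pa h915.T.C1_pa_int

theorem C2_xb : St_C2_xb := h915.T.C2_xb_of h915.T.C1_pa h915.T.C1_pa_int

theorem D3_det_padic : St_D3_det_padic :=
  h160.T.D3_det_padic_of t_A1_monic h950.T.t_D1_split C2_xa C2_xb h950.T.t_D2_eM_kap

theorem D3_large : St_D3_large := h160.T.D3_large_of t_A1_monic C2_xa C2_xb

theorem D4_small_med : St_D4_small_med :=
  h160.T.D4_small_med_of t_A1_monic C2_xa C2_xb h186.T.t_C4_CP_PB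

theorem D4_small_crude : St_D4_small_crude :=
  h160.T.D4_small_crude_of t_A1_monic h847.T.C3_crude h186.T.t_C4_CP_PB

theorem E3_A : St_E3_A := h216.T.t_E3_A h216.T.t_E1_Kset_sum h216.T.t_E2_Np

theorem E4_padic : St_E4_padic :=
  h216.T.t_E4_padic D3_det_padic D3_large h697.T.t_D3_mix h950.T.t_D2_kap_mem E3_A h216.T.t_E3_B

theorem P_main : St_P_main :=
  P_main_of D4_small_med D4_small_crude E4_padic h951.T.t_F2_A h951.T.t_F2_B h951.T.t_F2_U
    h228.T.t_F3_numeric h228.T.t_F4_small h228.T.t_F5_fact h228.T.t_F6_superfac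

theorem P_large : St_P_large := P_large_of D3_large

theorem G1_entryN : St_G1_entryN := h292.T.t_G1_entryN_of h292.T.t_B1_hasSum

theorem G2_entryY : St_G2_entryY :=
  h232.T.t_G2_entryY_of h292.T.t_G0_zq_inj h292.T.t_G0_nd_X h292.T.t_G0_nd_Y

theorem G6_pair : St_G6_pair := h617.T.t_G6_pair h617.T.t_G3_Lp

theorem A_main : St_A_main :=
  h576.T.t_A_main t_A1_real h292.T.t_G0_zq_inj h292.T.t_G0_nd_X h292.T.t_G0_nd_Y G1_entryN G2_entryY
    h617.T.t_G3_Lp h617.T.t_G4_weight h847.T.G5_sat G6_pair h617.T.t_G6_cross h221.T.t_V1_upper h221.T.t_V1_tail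
    h697.T.t_V2_lower h697.T.t_V3_upperY h201.T.t_V4_eS h201.T.t_V5_eN

theorem H3_diag : St_H3_diag := h136.T.t_H3_diag_of h915.T.C1_pa h136.T.t_H2_pa

theorem H4_offdiag : St_H4_offdiag := h136.T.t_H4_offdiag_of h915.T.C1_pa

theorem H6_nonvanish : St_H6_nonvanish :=
  h697.T.t_H6_nonvanish_of t_A2_ne H3_diag H4_offdiag h744.T.t_H5_local

/-- at least four of `1, ζ(3), ζ(5), ..., ζ(63)` are linearly independent over `ℚ` -/
theorem Z_main : St_Z_main :=
  Z_main_of P_main P_large A_main H6_nonvanish Z1_dim Pool.Agent.Dim7.Z3_irr Pool.Agent.Dim7.Z_main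

end

end Pool.Agent.Run7.h851.T
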